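import Mathlib

namespace Pool.Agent.Results.MP_fc29f1_nt.Full

open Finset

/-- `u ≡ v (mod p^m)` for rationals: `(u - v) / p^m` has denominator prime to `p` -/
def cong (p m : ℕ) (u v : ℚ) : Prop := ¬ p ∣ ((u - v) / (p : ℚ) ^ m).den

instance (p m : ℕ) (u v : ℚ) : Decidable (cong p m u v) := by unfold cong; infer_instance

/-- the generalized binomial coefficient `a (a-1) ⋯ (a-k+1) / k!` -/
def bin (a : ℚ) (k : ℕ) : ℚ := (∏ i ∈ range k, (a - i)) / k.factorial

theorem result : ¬ ∀ p : ℕ, p.Prime → 5 < p → p % 3 = 1 → ∀ A B : ℤ,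
    (p : ℤ) = A ^ 2 + 3 * B ^ 2 → 3 ∣ A - 1 →
    cong p 2 (∑ k ∈ range p, bin (-1 / 2) k * bin (-1 / 3) k / (-27) ^ k) (2 * A - p / (2 * A)) := by
  intro h
  have h1 := h 7 (by norm_num) (by norm_num) (by norm_num) (-2) 1 (by norm_num) (by decide)
  revert h1
  decide +kernel

end Pool.Agent.Results.MP_fc29f1_nt.Full
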